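import Mathlib

set_option autoImplicit false

open Real

namespace Pool.Agent.MP_c62c12_an

/-- The unit vector `e^{2 π i α n}`. -/
noncomputable def dir (α : ℝ) (n : ℕ) : ℂ :=
  Complex.exp (2 * (π : ℂ) * Complex.I * (α : ℂ) * (n : ℂ))

/-- The greedy sign at step `n` for the current point `z`: the sign `ε` in `{1, -1}` which makes
`|z + ε e^{2 π i α n}|` smaller (the value in case of a tie is irrelevant). -/
noncomputable def greedySign (α : ℝ) (n : ℕ) (z : ℂ) : ℤ :=
  if ‖z + dir α n‖ < ‖z - dir α n‖ then 1 else -1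

/-- `pos α z n` is the point `z_{n-1}` of the greedy system with starting point `z_{-1} = z`. -/
noncomputable def pos (α : ℝ) (z : ℂ) : ℕ → ℂ
  | 0 => z
  | n + 1 => pos α z n + (greedySign α n (pos α z n) : ℂ) * dir α n

/-- The sign `ε_n` of the greedy system with starting point `z_{-1} = z`. -/
noncomputable def eps (α : ℝ) (z : ℂ) (n : ℕ) : ℤ := greedySign α n (pos α z n)

/-- No tie ever occurs. -/
def Admissible (α : ℝ) (z : ℂ) : Prop :=
  ∀ n : ℕ, ‖pos α z n + dir α n‖ ≠ ‖pos α z n - dir α n‖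

/-- `p ≥ 1` and `s (n + p) = s n` for all large `n`. -/
def IsEventualPeriod (s : ℕ → ℤ) (p : ℕ) : Prop :=
  1 ≤ p ∧ ∃ N : ℕ, ∀ n : ℕ, N ≤ n → s (n + p) = s n

/-- Distance to the nearest integer. -/
noncomputable def distInt (x : ℝ) : ℝ := |x - (round x : ℝ)|

end Pool.Agent.MP_c62c12_an
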