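import Mathlib

set_option autoImplicit false

open Real

namespace Pool.Agent.MP_c62c12_an

/-- Hypotheses on the parameters. -/
structure Par (ρ M x : ℝ) : Prop where
  h1 : 1 ≤ ρ
  hM1 : 4 * ρ + 2 ≤ M
  hM2 : M ≤ 4 * ρ + 5 / 2
  hx0 : 0 < x
  hx1 : 100 * ρ ^ 3 * x ≤ 1

section
variable {ρ M x : ℝ} (h : Par ρ M x)
include h

theorem Par.Mpos : 0 < M := by have := h.h1; have := h.hM1; linarith

theorem Par.x_sq : ρ ^ 4 * x ^ 2 ≤ 1 / 10000 := by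
  have h1 := h.h1
  have hx0 := h.hx0
  have hx1 := h.hx1
  have h2 : (ρ ^ 3 * x) ^ 2 ≤ (1 / 100) ^ 2 := by
    apply pow_le_pow_left₀ (by positivity)
    linarith
  have h3 : ρ ^ 4 * x ^ 2 ≤ (ρ ^ 3 * x) ^ 2 := by
    have e : (ρ ^ 3 * x) ^ 2 = ρ ^ 4 * x ^ 2 * ρ ^ 2 := by ring
    rw [e]
    have : (1 : ℝ) ≤ ρ ^ 2 := one_le_pow₀ h1
    have hp : 0 ≤ ρ ^ 4 * x ^ 2 := by positivity
    nlinarith
  linarith

theorem Par.x_sq2 : ρ ^ 6 * x ^ 2 ≤ 1 / 10000 := by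
  have h1 := h.h1
  have hx0 := h.hx0
  have hx1 := h.hx1
  have h2 : (ρ ^ 3 * x) ^ 2 ≤ (1 / 100) ^ 2 := by
    apply pow_le_pow_left₀ (by positivity)
    linarith
  have e : (ρ ^ 3 * x) ^ 2 = ρ ^ 6 * x ^ 2 := by ring
  rw [e] at h2
  linarith

/-- `ρ² * (ρ x)² ≤ 1/10000`. -/
theorem Par.Mle : M ≤ 13 / 2 * ρ := by
  have := h.h1; have := h.hM2; linarith

theorem Par.M1le : M - 1 ≤ 11 / 2 * ρ := by
  have := h.h1; have := h.hM2; linarith

theorem Par.M1pos : 0 < M - 1 := by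
  have := h.h1; have := h.hM1; linarith

theorem Par.Om_nonneg : 0 ≤ ((2 * ρ + 2) * (M - 1) - M) * x := by
  have h1 := h.h1; have h2 := h.hM1; have h3 := h.hx0
  apply mul_nonneg _ h3.le
  nlinarith [h.M1pos]

theorem Par.Om_le : ((2 * ρ + 2) * (M - 1) - M) * x ≤ 22 * ρ ^ 2 * x := by
  have h1 := h.h1; have h2 := h.hM1; have h3 := h.hx0
  apply mul_le_mul_of_nonneg_right _ h3.le
  have h4 := h.M1le
  have h5 := h.M1pos
  have h6 := h.Mpos
  nlinarith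

theorem Par.rx2 : ρ ^ 2 * x ≤ 1 / 100 := by
  have h1 := h.h1; have h3 := h.hx0; have h4 := h.hx1
  have : ρ ^ 2 * x ≤ ρ ^ 3 * x := by
    apply mul_le_mul_of_nonneg_right _ h3.le
    exact pow_le_pow_right₀ h1 (by norm_num)
  linarith

theorem Par.cosOm_ge : 1 - 242 * ρ ^ 4 * x ^ 2 ≤ cos (((2 * ρ + 2) * (M - 1) - M) * x) := by
  have h1 := one_sub_sq_div_two_le_cos (x := ((2 * ρ + 2) * (M - 1) - M) * x)
  have h2 := h.Om_nonneg
  have h3 := h.Om_le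
  have h4 : (((2 * ρ + 2) * (M - 1) - M) * x) ^ 2 ≤ (22 * ρ ^ 2 * x) ^ 2 :=
    pow_le_pow_left₀ h2 h3 2
  have e : (22 * ρ ^ 2 * x) ^ 2 = 484 * ρ ^ 4 * x ^ 2 := by ring
  rw [e] at h4
  linarith

theorem Par.cosOm_pos : 0 < cos (((2 * ρ + 2) * (M - 1) - M) * x) := by
  have h1 := h.cosOm_ge
  have h2 := h.x_sq
  linarith

/-- Condition C1. -/
theorem Par.C1 : sin x * sin (M * x / 2 + 2 * ρ * ((M - 1) * x)) <
    cos (((2 * ρ + 2) * (M - 1) - M) * x) * (sin (M * x / 2) * sin ((M - 1) * x)) := by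
  have h1 := h.h1; have hx := h.hx0; have hM := h.Mpos; have hM1 := h.M1pos
  have hMl := h.Mle; have hM1l := h.M1le
  have hxx := h.x_sq
  -- left side
  have l1 : sin x ≤ x := sin_le hx.le
  have l1' : 0 ≤ sin x := sin_nonneg_of_nonneg_of_le_pi hx.le (by
    have := h.rx2
    have : x ≤ ρ ^ 2 * x := by nlinarith [one_le_pow₀ (n := 2) h1]
    have := pi_gt_three
    linarith)
  have l2 : sin (M * x / 2 + 2 * ρ * ((M - 1) * x)) ≤ M * x / 2 + 2 * ρ * ((M - 1) * x) :=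
    sin_le (by positivity)
  have l3 : 0 ≤ M * x / 2 + 2 * ρ * ((M - 1) * x) := by positivity
  have L : sin x * sin (M * x / 2 + 2 * ρ * ((M - 1) * x)) ≤
      x * (M * x / 2 + 2 * ρ * ((M - 1) * x)) :=
    (mul_le_mul_of_nonneg_left l2 l1').trans (mul_le_mul_of_nonneg_right l1 l3)
  -- right side
  have t0 : 0 < M * x / 2 := by positivity
  have o0 : 0 < (M - 1) * x := by positivity
  have r1 := (sin_gt_sub_cube t0).le
  have r2 := (sin_gt_sub_cube o0).le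
  have b1 : (M * x / 2) ^ 2 / 6 ≤ 2 * (ρ ^ 2 * x ^ 2) := by
    have : M ^ 2 ≤ (13 / 2 * ρ) ^ 2 := pow_le_pow_left₀ hM.le hMl 2
    have e : (M * x / 2) ^ 2 / 6 = M ^ 2 * (x ^ 2 / 24) := by ring
    rw [e]
    have : M ^ 2 * (x ^ 2 / 24) ≤ (13 / 2 * ρ) ^ 2 * (x ^ 2 / 24) :=
      mul_le_mul_of_nonneg_right this (by positivity)
    have hp : 0 ≤ ρ ^ 2 * x ^ 2 := by positivity
    nlinarith
  have b2 : ((M - 1) * x) ^ 2 / 6 ≤ 6 * (ρ ^ 2 * x ^ 2) := by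
    have : (M - 1) ^ 2 ≤ (11 / 2 * ρ) ^ 2 := pow_le_pow_left₀ hM1.le hM1l 2
    have e : ((M - 1) * x) ^ 2 / 6 = (M - 1) ^ 2 * (x ^ 2 / 6) := by ring
    rw [e]
    have : (M - 1) ^ 2 * (x ^ 2 / 6) ≤ (11 / 2 * ρ) ^ 2 * (x ^ 2 / 6) :=
      mul_le_mul_of_nonneg_right this (by positivity)
    have hp : 0 ≤ ρ ^ 2 * x ^ 2 := by positivity
    nlinarith
  have hρ24 : ρ ^ 2 * x ^ 2 ≤ ρ ^ 4 * x ^ 2 := by
    apply mul_le_mul_of_nonneg_right _ (by positivity)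
    exact pow_le_pow_right₀ h1 (by norm_num)
  set ε := ρ ^ 4 * x ^ 2 with hε
  have hε0 : 0 < ε := by positivity
  have s1 : M * x / 2 * (1 - 2 * ε) ≤ sin (M * x / 2) := by
    refine le_trans ?_ r1
    have e : M * x / 2 - (M * x / 2) ^ 3 / 6 = M * x / 2 * (1 - (M * x / 2) ^ 2 / 6) := by ring
    rw [e]
    apply mul_le_mul_of_nonneg_left _ t0.le
    linarith
  have s2 : (M - 1) * x * (1 - 6 * ε) ≤ sin ((M - 1) * x) := by
    refine le_trans ?_ r2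
    have e : (M - 1) * x - ((M - 1) * x) ^ 3 / 6 = (M - 1) * x * (1 - ((M - 1) * x) ^ 2 / 6) := by
      ring
    rw [e]
    apply mul_le_mul_of_nonneg_left _ o0.le
    linarith
  have s3 : 1 - 242 * ε ≤ cos (((2 * ρ + 2) * (M - 1) - M) * x) := by
    have := h.cosOm_ge
    rw [hε]
    linarith
  have R : (M * x / 2) * ((M - 1) * x) * (1 - 250 * ε) ≤
      cos (((2 * ρ + 2) * (M - 1) - M) * x) * (sin (M * x / 2) * sin ((M - 1) * x)) := by
    have p1 : 0 ≤ M * x / 2 * (1 - 2 * ε) := mul_nonneg t0.le (by linarith)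
    have p2 : 0 ≤ (M - 1) * x * (1 - 6 * ε) := mul_nonneg o0.le (by linarith)
    have q1 : (M * x / 2 * (1 - 2 * ε)) * ((M - 1) * x * (1 - 6 * ε)) ≤
        sin (M * x / 2) * sin ((M - 1) * x) := mul_le_mul s1 s2 p2 (p1.trans s1)
    have q2 : (1 - 242 * ε) * ((M * x / 2 * (1 - 2 * ε)) * ((M - 1) * x * (1 - 6 * ε))) ≤
        cos (((2 * ρ + 2) * (M - 1) - M) * x) * (sin (M * x / 2) * sin ((M - 1) * x)) :=
      mul_le_mul s3 q1 (mul_nonneg p1 p2) h.cosOm_pos.le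
    refine le_trans ?_ q2
    have e : (1 - 242 * ε) * ((M * x / 2 * (1 - 2 * ε)) * ((M - 1) * x * (1 - 6 * ε))) =
        (M * x / 2) * ((M - 1) * x) * ((1 - 242 * ε) * ((1 - 2 * ε) * (1 - 6 * ε))) := by ring
    rw [e]
    apply mul_le_mul_of_nonneg_left _ (mul_nonneg t0.le o0.le)
    nlinarith [sq_nonneg ε, mul_pos hε0 hε0]
  refine lt_of_le_of_lt L (lt_of_lt_of_le ?_ R)
  -- polynomial inequality
  have e1 : x * (M * x / 2 + 2 * ρ * ((M - 1) * x)) = x ^ 2 * (M / 2 + 2 * ρ * (M - 1)) := by ring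
  have e2 : (M * x / 2) * ((M - 1) * x) * (1 - 250 * ε) =
      x ^ 2 * (M * (M - 1) / 2 * (1 - 250 * ε)) := by ring
  rw [e1, e2]
  apply mul_lt_mul_of_pos_left _ (by positivity)
  have m1 : M * (M - 1) / 2 - M / 2 - 2 * ρ * (M - 1) ≥ 2 * ρ := by
    nlinarith [mul_nonneg hM.le (sub_nonneg.mpr h.hM1)]
  have m2 : M * (M - 1) / 2 * (250 * ε) < 2 * ρ := by
    have a1 : M * (M - 1) ≤ 13 / 2 * ρ * (11 / 2 * ρ) :=
      mul_le_mul hMl hM1l hM1.le (by positivity)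
    have a2 : ρ ^ 2 * ε ≤ 1 / 10000 := by
      have := h.x_sq2
      have e : ρ ^ 2 * ε = ρ ^ 6 * x ^ 2 := by rw [hε]; ring
      rw [e]; exact this
    calc M * (M - 1) / 2 * (250 * ε) = M * (M - 1) * (125 * ε) := by ring
      _ ≤ 13 / 2 * ρ * (11 / 2 * ρ) * (125 * ε) :=
          mul_le_mul_of_nonneg_right a1 (by positivity)
      _ = 13 / 2 * (11 / 2) * 125 * (ρ ^ 2 * ε) := by ring
      _ ≤ 13 / 2 * (11 / 2) * 125 * (1 / 10000) := by
          apply mul_le_mul_of_nonneg_left a2 (by norm_num)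
      _ < 2 * ρ := by linarith
  nlinarith

/-- Condition C2. -/
theorem Par.C2 : sin (M * x / 2) * sin ((M - 1) * x) * cos (((2 * ρ + 2) * (M - 1) - M) * x) <
    sin x * sin (((2 * ρ + 2) * (M - 1) - M / 2) * x) := by
  have h1 := h.h1; have hx := h.hx0; have hM := h.Mpos; have hM1 := h.M1pos
  have hMl := h.Mle; have hM1l := h.M1le
  have hxx := h.x_sq
  have t0 : 0 < M * x / 2 := by positivity
  have o0 : 0 < (M - 1) * x := by positivity
  have hρ24 : ρ ^ 2 * x ^ 2 ≤ ρ ^ 4 * x ^ 2 := by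
    apply mul_le_mul_of_nonneg_right _ (by positivity)
    exact pow_le_pow_right₀ h1 (by norm_num)
  have hρ4 : x ^ 2 ≤ ρ ^ 4 * x ^ 2 := by
    have : (1 : ℝ) ≤ ρ ^ 4 := one_le_pow₀ h1
    nlinarith [sq_nonneg x]
  have hrx := h.rx2
  have y1 : 0 < (2 * ρ + 2) * (M - 1) - M / 2 := by
    have := mul_nonneg (sub_nonneg.mpr h1) hM1.le
    have := h.hM1
    linarith
  have y2 : (2 * ρ + 2) * (M - 1) - M / 2 ≤ 22 * ρ ^ 2 := by
    have a1 : (2 * ρ + 2) * (M - 1) ≤ (4 * ρ) * (11 / 2 * ρ) :=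
      mul_le_mul (by linarith) hM1l hM1.le (by positivity)
    have a2 : (4 * ρ) * (11 / 2 * ρ) = 22 * ρ ^ 2 := by ring
    linarith
  have Y0 : 0 < ((2 * ρ + 2) * (M - 1) - M / 2) * x := mul_pos y1 hx
  -- left
  have hs0 : 0 ≤ sin (M * x / 2) := sin_nonneg_of_nonneg_of_le_pi t0.le (by
    have : M * x / 2 ≤ 13 / 2 * ρ * x / 2 := by
      have := mul_le_mul_of_nonneg_right hMl hx.le
      linarith
    have h3 : ρ * x ≤ ρ ^ 2 * x := by
      apply mul_le_mul_of_nonneg_right _ hx.le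
      nlinarith
    have := pi_gt_three
    nlinarith)
  have hs1 : 0 ≤ sin ((M - 1) * x) := sin_nonneg_of_nonneg_of_le_pi o0.le (by
    have : (M - 1) * x ≤ 11 / 2 * ρ * x := mul_le_mul_of_nonneg_right hM1l hx.le
    have h3 : ρ * x ≤ ρ ^ 2 * x := by
      apply mul_le_mul_of_nonneg_right _ hx.le
      nlinarith
    have := pi_gt_three
    nlinarith)
  have L : sin (M * x / 2) * sin ((M - 1) * x) * cos (((2 * ρ + 2) * (M - 1) - M) * x) ≤
      (M * x / 2) * ((M - 1) * x) := by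
    have a1 : sin (M * x / 2) * sin ((M - 1) * x) ≤ (M * x / 2) * ((M - 1) * x) :=
      mul_le_mul (sin_le t0.le) (sin_le o0.le) hs1 t0.le
    have a2 : sin (M * x / 2) * sin ((M - 1) * x) * cos (((2 * ρ + 2) * (M - 1) - M) * x) ≤
        sin (M * x / 2) * sin ((M - 1) * x) * 1 :=
      mul_le_mul_of_nonneg_left (cos_le_one _) (mul_nonneg hs0 hs1)
    linarith
  -- right
  have r1 := (sin_gt_sub_cube hx).le
  have r2 := (sin_gt_sub_cube Y0).le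
  set Y := ((2 * ρ + 2) * (M - 1) - M / 2) * x with hY
  have hYle : Y ≤ 22 * ρ ^ 2 * x := by
    rw [hY]; exact mul_le_mul_of_nonneg_right y2 hx.le
  set ε := ρ ^ 4 * x ^ 2 with hε
  have hε0 : 0 < ε := by positivity
  have s1 : x * (1 - ε) ≤ sin x := by
    refine le_trans ?_ r1
    have e : x - x ^ 3 / 6 = x * (1 - x ^ 2 / 6) := by ring
    rw [e]
    apply mul_le_mul_of_nonneg_left _ hx.le
    nlinarith [sq_nonneg x]
  have s2 : Y * (1 - 81 * ε) ≤ sin Y := by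
    refine le_trans ?_ r2
    have e : Y - Y ^ 3 / 6 = Y * (1 - Y ^ 2 / 6) := by ring
    rw [e]
    apply mul_le_mul_of_nonneg_left _ Y0.le
    have : Y ^ 2 ≤ (22 * ρ ^ 2 * x) ^ 2 := pow_le_pow_left₀ Y0.le hYle 2
    have e2 : (22 * ρ ^ 2 * x) ^ 2 = 484 * ε := by rw [hε]; ring
    rw [e2] at this
    linarith
  have R : x * Y * (1 - 82 * ε) ≤ sin x * sin Y := by
    have p1 : 0 ≤ x * (1 - ε) := mul_nonneg hx.le (by linarith)
    have p2 : 0 ≤ Y * (1 - 81 * ε) := mul_nonneg Y0.le (by linarith)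
    have q1 : (x * (1 - ε)) * (Y * (1 - 81 * ε)) ≤ sin x * sin Y :=
      mul_le_mul s1 s2 p2 (p1.trans s1)
    refine le_trans ?_ q1
    have e : (x * (1 - ε)) * (Y * (1 - 81 * ε)) = x * Y * ((1 - ε) * (1 - 81 * ε)) := by ring
    rw [e]
    apply mul_le_mul_of_nonneg_left _ (mul_nonneg hx.le Y0.le)
    nlinarith [sq_nonneg ε]
  refine lt_of_le_of_lt L (lt_of_lt_of_le ?_ R)
  have e1 : (M * x / 2) * ((M - 1) * x) = x ^ 2 * (M * (M - 1) / 2) := by ring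
  have e2 : x * Y * (1 - 82 * ε) =
      x ^ 2 * (((2 * ρ + 2) * (M - 1) - M / 2) * (1 - 82 * ε)) := by rw [hY]; ring
  rw [e1, e2]
  apply mul_lt_mul_of_pos_left _ (by positivity)
  have m1 : (2 * ρ + 2) * (M - 1) - M / 2 - M * (M - 1) / 2 ≥ 7 / 8 * ρ := by
    obtain ⟨e, he⟩ : ∃ e, M = 4 * ρ + 2 + e := ⟨M - (4 * ρ + 2), by ring⟩
    have he0 : 0 ≤ e := by have := h.hM1; linarith
    have he1 : e ≤ 1 / 2 := by have := h.hM2; linarith
    subst he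
    have : (2 * ρ + 2) * (4 * ρ + 2 + e - 1) - (4 * ρ + 2 + e) / 2
        - (4 * ρ + 2 + e) * (4 * ρ + 2 + e - 1) / 2 = (4 * ρ - 4 * ρ * e - e ^ 2) / 2 := by ring
    rw [this]
    have b1 : ρ * e ≤ ρ * (1 / 2) := mul_le_mul_of_nonneg_left he1 (by linarith)
    have b2 : e ^ 2 ≤ (1 / 2) ^ 2 := pow_le_pow_left₀ he0 he1 2
    linarith
  have m2 : ((2 * ρ + 2) * (M - 1) - M / 2) * (82 * ε) < 7 / 8 * ρ := by
    have a2 : ρ ^ 2 * ε ≤ 1 / 10000 := by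
      have := h.x_sq2
      have e : ρ ^ 2 * ε = ρ ^ 6 * x ^ 2 := by rw [hε]; ring
      rw [e]; exact this
    calc ((2 * ρ + 2) * (M - 1) - M / 2) * (82 * ε) ≤ 22 * ρ ^ 2 * (82 * ε) :=
          mul_le_mul_of_nonneg_right y2 (by positivity)
      _ = 22 * 82 * (ρ ^ 2 * ε) := by ring
      _ ≤ 22 * 82 * (1 / 10000) := mul_le_mul_of_nonneg_left a2 (by norm_num)
      _ < 7 / 8 * ρ := by linarith
  linarith

end

end Pool.Agent.MP_c62c12_an
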