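import Pool.Agent.MP_c62c12_an.Trig
import Pool.Agent.MP_c62c12_an.Ineq

set_option autoImplicit false

open Real

namespace Pool.Agent.MP_c62c12_an

/-- The amplitude of the perturbation. -/
noncomputable def kap (ρ M x : ℝ) : ℝ := sin x / cos (((2 * ρ + 2) * (M - 1) - M) * x)

/-- `S ρ M x s j y`. -/
noncomputable def S (ρ M x s j y : ℝ) : ℝ :=
  cos (y + M * x / 2 + (M - 1) * x) + s * kap ρ M x * sin (y + M * x / 2 + 2 * j * ((M - 1) * x))

noncomputable def CC (M x : ℝ) : ℝ := cos (M * x / 2) * cos ((M - 1) * x)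

section
variable {ρ M x : ℝ} (h : Par ρ M x)
include h

theorem Par.kap_mul : kap ρ M x * cos (((2 * ρ + 2) * (M - 1) - M) * x) = sin x := by
  unfold kap
  exact div_mul_cancel₀ _ h.cosOm_pos.ne'

theorem Par.x_small : x ≤ 1 / 100 := by
  have h1 := h.h1
  have := h.rx2
  have : x ≤ ρ ^ 2 * x := by nlinarith [one_le_pow₀ (n := 2) h1, h.hx0]
  linarith

theorem Par.Mx_small : M * x ≤ 13 / 200 := by
  have h1 := h.h1
  have h2 := h.rx2
  have h3 : ρ * x ≤ ρ ^ 2 * x := by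
    apply mul_le_mul_of_nonneg_right _ h.hx0.le
    nlinarith
  have h4 := mul_le_mul_of_nonneg_right h.Mle h.hx0.le
  nlinarith

theorem Par.sinx_nonneg : 0 ≤ sin x :=
  sin_nonneg_of_nonneg_of_le_pi h.hx0.le (by have := h.x_small; have := pi_gt_three; linarith)

theorem Par.kap_nonneg : 0 ≤ kap ρ M x := div_nonneg h.sinx_nonneg h.cosOm_pos.le

theorem Par.kap_le : kap ρ M x ≤ 103 / 100 * x := by
  unfold kap
  rw [div_le_iff₀ h.cosOm_pos]
  have h1 := h.cosOm_ge
  have h2 := h.x_sq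
  have h3 : (9758 : ℝ) / 10000 ≤ cos (((2 * ρ + 2) * (M - 1) - M) * x) := by linarith
  have h4 := sin_le h.hx0.le
  have h5 := h.hx0
  nlinarith

theorem Par.rw_le : M * x / 2 + 2 * ρ * ((M - 1) * x) ≤ 1 / 4 := by
  have h1 := h.h1
  have h2 := h.rx2
  have h3 : ρ * x ≤ ρ ^ 2 * x := by
    apply mul_le_mul_of_nonneg_right _ h.hx0.le
    nlinarith
  have h4 := mul_le_mul_of_nonneg_right h.Mle h.hx0.le
  have h5 := mul_le_mul_of_nonneg_right h.M1le h.hx0.le
  have h6 : 2 * ρ * ((M - 1) * x) ≤ 2 * ρ * (11 / 2 * ρ * x) :=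
    mul_le_mul_of_nonneg_left h5 (by linarith)
  nlinarith

theorem Par.CC_pos : 0 < CC M x := by
  unfold CC
  have h1 := h.Mx_small
  have h2 := h.M1pos
  have h3 := h.Mpos
  have h4 := h.hx0
  have h5 : (M - 1) * x ≤ M * x := by nlinarith
  have h6 : 0 < (M - 1) * x := by positivity
  have h7 : 0 < M * x := by positivity
  have hpi := pi_gt_three
  apply mul_pos
  · apply cos_pos_of_mem_Ioo
    constructor <;> linarith
  · apply cos_pos_of_mem_Ioo
    constructor <;> linarith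

omit h in
theorem sin_bound_aux {s y B : ℝ} (hs : s = 1 ∨ s = -1) (hB : B ≤ 1) (hy : |y| ≤ B) :
    s * sin y ≤ sin B := by
  have hpi := pi_gt_three
  obtain ⟨h1, h2⟩ := abs_le.mp hy
  rcases hs with rfl | rfl
  · rw [one_mul]
    exact sin_le_sin_of_le_of_le_pi_div_two (by linarith) (by linarith) h2
  · have : -1 * sin y = sin (-y) := by rw [sin_neg]; ring
    rw [this]
    exact sin_le_sin_of_le_of_le_pi_div_two (by linarith) (by linarith) (by linarith)

/-- I1 -/
theorem Par.I1 {s j : ℝ} (hs : s = 1 ∨ s = -1) (hj : |j| ≤ ρ) : S ρ M x s j 0 < CC M x := by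
  unfold S CC
  have h0 := h.C1
  have hk := h.kap_mul
  have hk0 := h.kap_nonneg
  have hM := h.Mpos
  have hM1 := h.M1pos
  have hx := h.hx0
  have hc := h.cosOm_pos
  have hw : 0 < (M - 1) * x := by positivity
  have ht : 0 < M * x / 2 := by positivity
  obtain ⟨hj1, hj2⟩ := abs_le.mp hj
  have hb : s * sin (0 + M * x / 2 + 2 * j * ((M - 1) * x)) ≤
      sin (M * x / 2 + 2 * ρ * ((M - 1) * x)) := by
    apply sin_bound_aux hs (h.rw_le.trans (by norm_num))
    rw [abs_le]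
    constructor
    · have : -ρ * ((M - 1) * x) ≤ j * ((M - 1) * x) := mul_le_mul_of_nonneg_right hj1 hw.le
      linarith
    · have : j * ((M - 1) * x) ≤ ρ * ((M - 1) * x) := mul_le_mul_of_nonneg_right hj2 hw.le
      linarith
  have h1 : kap ρ M x * sin (M * x / 2 + 2 * ρ * ((M - 1) * x)) <
      sin (M * x / 2) * sin ((M - 1) * x) := by
    rw [← hk] at h0
    have : cos (((2 * ρ + 2) * (M - 1) - M) * x) *
        (kap ρ M x * sin (M * x / 2 + 2 * ρ * ((M - 1) * x))) <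
        cos (((2 * ρ + 2) * (M - 1) - M) * x) * (sin (M * x / 2) * sin ((M - 1) * x)) := by
      linarith
    exact lt_of_mul_lt_mul_left this hc.le
  have h2 := mul_le_mul_of_nonneg_left hb hk0
  have h3 : cos (0 + M * x / 2 + (M - 1) * x) =
      cos (M * x / 2) * cos ((M - 1) * x) - sin (M * x / 2) * sin ((M - 1) * x) := by
    rw [zero_add, cos_add]
  rw [h3]
  have h4 : s * kap ρ M x * sin (0 + M * x / 2 + 2 * j * ((M - 1) * x)) =
      kap ρ M x * (s * sin (0 + M * x / 2 + 2 * j * ((M - 1) * x))) := by ring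
  rw [h4]
  linarith

/-- I2 -/
theorem Par.I2 {s j : ℝ} (hs : s = 1 ∨ s = -1) (hj1 : -ρ + 1 ≤ j) (hj2 : j ≤ ρ) :
    S ρ M x s j (-2 * ((M - 1) * x) - 2 * (M * x)) < CC M x := by
  unfold S CC
  have hk0 := h.kap_nonneg
  have hM := h.Mpos
  have hM1 := h.M1pos
  have hx := h.hx0
  have hw : 0 < (M - 1) * x := by positivity
  have ht : 0 < M * x := by positivity
  have htt := h.Mx_small
  have h1 := h.h1
  have hM6 : 6 ≤ M := by have := h.hM1; linarith
  -- sine term
  have hb : s * sin (-2 * ((M - 1) * x) - 2 * (M * x) + M * x / 2 + 2 * j * ((M - 1) * x)) ≤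
      3 / 2 * (M * x) + 2 * ρ * ((M - 1) * x) := by
    have e : |s * sin (-2 * ((M - 1) * x) - 2 * (M * x) + M * x / 2 + 2 * j * ((M - 1) * x))| ≤
        3 / 2 * (M * x) + 2 * ρ * ((M - 1) * x) := by
      rw [abs_mul]
      have : |s| = 1 := by rcases hs with rfl | rfl <;> simp
      rw [this, one_mul]
      refine abs_sin_le_abs.trans ?_
      rw [abs_le]
      constructor
      · have : (-ρ + 1) * ((M - 1) * x) ≤ j * ((M - 1) * x) := mul_le_mul_of_nonneg_right hj1 hw.le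
        linarith
      · have : j * ((M - 1) * x) ≤ ρ * ((M - 1) * x) := mul_le_mul_of_nonneg_right hj2 hw.le
        linarith
    exact (le_abs_self _).trans e
  have hk := h.kap_le
  have hsum : 3 / 2 * (M * x) + 2 * ρ * ((M - 1) * x) ≤ 7 / 12 * M * (M * x) := by
    have a1 : 2 * ρ * ((M - 1) * x) ≤ 2 * ρ * (M * x) := by
      apply mul_le_mul_of_nonneg_left _ (by linarith)
      nlinarith
    have a2 : (3 / 2 + 2 * ρ) ≤ 7 / 12 * M := by have := h.hM1; linarith
    have a3 := mul_le_mul_of_nonneg_right a2 ht.le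
    linarith
  have hterm : s * kap ρ M x *
      sin (-2 * ((M - 1) * x) - 2 * (M * x) + M * x / 2 + 2 * j * ((M - 1) * x)) ≤
      61 / 100 * (M * x) ^ 2 := by
    have b1 : s * kap ρ M x *
      sin (-2 * ((M - 1) * x) - 2 * (M * x) + M * x / 2 + 2 * j * ((M - 1) * x)) =
      kap ρ M x * (s *
      sin (-2 * ((M - 1) * x) - 2 * (M * x) + M * x / 2 + 2 * j * ((M - 1) * x))) := by ring
    rw [b1]
    calc _ ≤ kap ρ M x * (3 / 2 * (M * x) + 2 * ρ * ((M - 1) * x)) :=
          mul_le_mul_of_nonneg_left hb hk0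
      _ ≤ (103 / 100 * x) * (7 / 12 * M * (M * x)) := by
          apply mul_le_mul hk hsum (by positivity) (by positivity)
      _ = 103 / 100 * (7 / 12) * (M * x) ^ 2 := by ring
      _ ≤ _ := by
          have := sq_nonneg (M * x)
          linarith
  -- cosine term
  have hz : cos (-2 * ((M - 1) * x) - 2 * (M * x) + M * x / 2 + (M - 1) * x) =
      cos ((M - 1) * x + 3 / 2 * (M * x)) := by
    rw [← cos_neg]
    congr 1
    ring
  rw [hz]
  set z := (M - 1) * x + 3 / 2 * (M * x) with hzdef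
  have hz1 : 7 / 3 * (M * x) ≤ z := by
    rw [hzdef]
    nlinarith
  have hz2 : z ≤ 5 / 2 * (M * x) := by
    rw [hzdef]
    nlinarith
  have hz0 : 0 < z := by positivity
  have hzabs : |z| ≤ 1 := by rw [abs_of_pos hz0]; linarith
  have hcb := (abs_le.mp (cos_bound hzabs)).2
  rw [abs_of_pos hz0] at hcb
  have hz4 : z ^ 4 ≤ (5 / 2 * (M * x)) ^ 4 := pow_le_pow_left₀ hz0.le hz2 4
  have hz2' : (7 / 3 * (M * x)) ^ 2 ≤ z ^ 2 := pow_le_pow_left₀ (by positivity) hz1 2
  have ht4 : (M * x) ^ 4 ≤ (13 / 200) ^ 2 * (M * x) ^ 2 := by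
    have : (M * x) ^ 2 ≤ (13 / 200) ^ 2 := pow_le_pow_left₀ ht.le htt 2
    have e : (M * x) ^ 4 = (M * x) ^ 2 * (M * x) ^ 2 := by ring
    rw [e]
    exact mul_le_mul_of_nonneg_right this (by positivity)
  have hzz : (5 / 2 * (M * x)) ^ 4 = 625 / 16 * (M * x) ^ 4 := by ring
  have hzz2 : (7 / 3 * (M * x)) ^ 2 = 49 / 9 * (M * x) ^ 2 := by ring
  rw [hzz] at hz4
  rw [hzz2] at hz2'
  have ht2 : 0 < (M * x) ^ 2 := by positivity
  -- right side
  have hr1 := one_sub_sq_div_two_le_cos (x := M * x / 2)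
  have hr2 := one_sub_sq_div_two_le_cos (x := (M - 1) * x)
  have hwt : ((M - 1) * x) ^ 2 ≤ (M * x) ^ 2 := by
    apply pow_le_pow_left₀ hw.le
    nlinarith
  have htsq : (M * x) ^ 2 ≤ (13 / 200) ^ 2 := pow_le_pow_left₀ ht.le htt 2
  have hr : 1 - 5 / 8 * (M * x) ^ 2 ≤ cos (M * x / 2) * cos ((M - 1) * x) := by
    have d1 : (M * x / 2) ^ 2 / 2 = (M * x) ^ 2 / 8 := by ring
    rw [d1] at hr1
    have c1 : 0 ≤ 1 - (M * x) ^ 2 / 8 := by linarith
    have c2 : 0 ≤ 1 - ((M - 1) * x) ^ 2 / 2 := by linarith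
    have c3 : (1 - (M * x) ^ 2 / 8) * (1 - ((M - 1) * x) ^ 2 / 2) ≤
        cos (M * x / 2) * cos ((M - 1) * x) := mul_le_mul hr1 hr2 c2 (c1.trans hr1)
    refine le_trans ?_ c3
    have c4 : 0 ≤ (M * x) ^ 2 * ((M - 1) * x) ^ 2 := by positivity
    have c5 : (1 - (M * x) ^ 2 / 8) * (1 - ((M - 1) * x) ^ 2 / 2) =
      1 - (M * x) ^ 2 / 8 - ((M - 1) * x) ^ 2 / 2 + (M * x) ^ 2 * ((M - 1) * x) ^ 2 / 16 := by ring
    rw [c5]
    linarith
  linarith

/-- I3 -/
theorem Par.I3 : S ρ M x 1 (-ρ) (-2 * ((M - 1) * x)) < CC M x := by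
  unfold S CC
  have h0 := h.C2
  have hk := h.kap_mul
  have hc := h.cosOm_pos
  rw [← hk] at h0
  have h1 : sin (M * x / 2) * sin ((M - 1) * x) <
      kap ρ M x * sin (((2 * ρ + 2) * (M - 1) - M / 2) * x) := by
    have : cos (((2 * ρ + 2) * (M - 1) - M) * x) * (sin (M * x / 2) * sin ((M - 1) * x)) <
        cos (((2 * ρ + 2) * (M - 1) - M) * x) *
        (kap ρ M x * sin (((2 * ρ + 2) * (M - 1) - M / 2) * x)) := by
      linarith
    exact lt_of_mul_lt_mul_left this hc.le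
  have e1 : cos (-2 * ((M - 1) * x) + M * x / 2 + (M - 1) * x) =
      cos (M * x / 2) * cos ((M - 1) * x) + sin (M * x / 2) * sin ((M - 1) * x) := by
    rw [← cos_sub]
    congr 1
    ring
  have e2 : sin (-2 * ((M - 1) * x) + M * x / 2 + 2 * -ρ * ((M - 1) * x)) =
      -sin (((2 * ρ + 2) * (M - 1) - M / 2) * x) := by
    rw [← sin_neg]
    congr 1
    ring
  rw [e1, e2]
  linarith

omit h in
/-- reflection identity between consecutive branches. -/
theorem S_refl {s j : ℝ} : S ρ M x s j (-2 * ((M - 1) * x)) + S ρ M x (-s) (j - 1) 0 =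
    2 * CC M x := by
  unfold S CC
  have e1 : cos (-2 * ((M - 1) * x) + M * x / 2 + (M - 1) * x) =
      cos (M * x / 2) * cos ((M - 1) * x) + sin (M * x / 2) * sin ((M - 1) * x) := by
    rw [← cos_sub]
    congr 1
    ring
  have e2 : cos (0 + M * x / 2 + (M - 1) * x) =
      cos (M * x / 2) * cos ((M - 1) * x) - sin (M * x / 2) * sin ((M - 1) * x) := by
    rw [zero_add, cos_add]
  have e3 : -2 * ((M - 1) * x) + M * x / 2 + 2 * j * ((M - 1) * x) =
      0 + M * x / 2 + 2 * (j - 1) * ((M - 1) * x) := by ring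
  rw [e1, e2, e3]
  ring

/-- closing identity. -/
theorem Par.closing : S ρ M x 1 (-ρ) (-2 * (M * x) + 4 * x) + S ρ M x 1 ρ 0 = 2 * CC M x := by
  unfold S CC
  have hk := h.kap_mul
  -- sin a + sin b = 2 sin((a+b)/2) cos((a-b)/2)
  have e1 : cos (-2 * (M * x) + 4 * x + M * x / 2 + (M - 1) * x) +
      cos (0 + M * x / 2 + (M - 1) * x) =
      2 * cos ((M - 2) * x) * cos ((M * x) / 2 + x) := by
    have a1 : -2 * (M * x) + 4 * x + M * x / 2 + (M - 1) * x =
        -((M - 2) * x) + ((M * x) / 2 + x) := by ring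
    have a2 : 0 + M * x / 2 + (M - 1) * x = (M - 2) * x + ((M * x) / 2 + x) := by ring
    rw [a1, a2, cos_add (-((M - 2) * x)) (M * x / 2 + x), cos_add ((M - 2) * x) (M * x / 2 + x),
      cos_neg, sin_neg]
    ring
  have e2 : sin (-2 * (M * x) + 4 * x + M * x / 2 + 2 * -ρ * ((M - 1) * x)) +
      sin (0 + M * x / 2 + 2 * ρ * ((M - 1) * x)) =
      -2 * sin ((M / 2 - 2) * x) * cos (((2 * ρ + 2) * (M - 1) - M) * x) := by
    have a1 : -2 * (M * x) + 4 * x + M * x / 2 + 2 * -ρ * ((M - 1) * x) =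
        -((M / 2 - 2) * x) - ((2 * ρ + 2) * (M - 1) - M) * x := by ring
    have a2 : 0 + M * x / 2 + 2 * ρ * ((M - 1) * x) =
        -((M / 2 - 2) * x) + ((2 * ρ + 2) * (M - 1) - M) * x := by ring
    rw [a1, a2, sin_add (-((M / 2 - 2) * x)) (((2 * ρ + 2) * (M - 1) - M) * x),
      sin_sub (-((M / 2 - 2) * x)) (((2 * ρ + 2) * (M - 1) - M) * x), cos_neg, sin_neg]
    ring
  have e3 : 2 * cos ((M - 2) * x) * cos ((M * x) / 2 + x) - 2 * sin ((M / 2 - 2) * x) * sin x =
      2 * (cos (M * x / 2) * cos ((M - 1) * x)) := by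
    have g1 : ∀ a b : ℝ, cos (a + b) + cos (a - b) = 2 * cos a * cos b := by
      intro a b
      rw [cos_add, cos_sub]; ring
    have g2 : ∀ a b : ℝ, cos (a - b) - cos (a + b) = 2 * sin a * sin b := by
      intro a b
      rw [cos_add, cos_sub]; ring
    have b1 : cos (M * x / 2 + (M - 1) * x) + cos (M * x / 2 - (M - 1) * x) =
        2 * (cos (M * x / 2) * cos ((M - 1) * x)) := by
      rw [g1]; ring
    have b2 : cos ((M - 2) * x + (M * x / 2 + x)) + cos ((M - 2) * x - (M * x / 2 + x)) =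
        2 * cos ((M - 2) * x) * cos ((M * x) / 2 + x) := g1 _ _
    have b3 : cos ((M / 2 - 2) * x - x) - cos ((M / 2 - 2) * x + x) =
        2 * sin ((M / 2 - 2) * x) * sin x := g2 _ _
    have c1 : (M - 2) * x + (M * x / 2 + x) = M * x / 2 + (M - 1) * x := by ring
    have c2 : (M - 2) * x - (M * x / 2 + x) = (M / 2 - 2) * x - x := by ring
    have c3 : cos ((M / 2 - 2) * x + x) = cos (M * x / 2 - (M - 1) * x) := by
      rw [← cos_neg]
      congr 1
      ring
    rw [c1, c2] at b2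
    rw [c3] at b3
    linarith
  have e4 : kap ρ M x * (-2 * sin ((M / 2 - 2) * x) * cos (((2 * ρ + 2) * (M - 1) - M) * x)) =
      - 2 * sin ((M / 2 - 2) * x) * sin x := by
    rw [← hk]; ring
  have : cos (-2 * (M * x) + 4 * x + M * x / 2 + (M - 1) * x) +
        1 * kap ρ M x * sin (-2 * (M * x) + 4 * x + M * x / 2 + 2 * -ρ * ((M - 1) * x)) +
      (cos (0 + M * x / 2 + (M - 1) * x) +
        1 * kap ρ M x * sin (0 + M * x / 2 + 2 * ρ * ((M - 1) * x))) =
      (cos (-2 * (M * x) + 4 * x + M * x / 2 + (M - 1) * x) +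
      cos (0 + M * x / 2 + (M - 1) * x)) + kap ρ M x *
      (sin (-2 * (M * x) + 4 * x + M * x / 2 + 2 * -ρ * ((M - 1) * x)) +
      sin (0 + M * x / 2 + 2 * ρ * ((M - 1) * x))) := by ring
  rw [this, e1, e2, e4]
  linarith

omit h in
theorem S_lin (s j y : ℝ) : S ρ M x s j y =
    (cos (M * x / 2 + (M - 1) * x) + s * kap ρ M x * sin (M * x / 2 + 2 * j * ((M - 1) * x))) * cos y
    + (-sin (M * x / 2 + (M - 1) * x) +
      s * kap ρ M x * cos (M * x / 2 + 2 * j * ((M - 1) * x))) * sin y := by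
  unfold S
  have e1 : y + M * x / 2 + (M - 1) * x = y + (M * x / 2 + (M - 1) * x) := by ring
  have e2 : y + M * x / 2 + 2 * j * ((M - 1) * x) = y + (M * x / 2 + 2 * j * ((M - 1) * x)) := by
    ring
  rw [e1, e2, cos_add y (M * x / 2 + (M - 1) * x), sin_add y (M * x / 2 + 2 * j * ((M - 1) * x))]
  ring

/-- short branches. -/
theorem Par.short {s j y : ℝ} (hs : s = 1 ∨ s = -1) (hj1 : -ρ + 1 ≤ j) (hj2 : j ≤ ρ)
    (hy0 : 0 ≤ y) (hy : y ≤ 2 * π - 2 * ((M - 1) * x) - 2 * (M * x)) :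
    S ρ M x s j y < CC M x := by
  have hM := h.Mpos
  have hM1 := h.M1pos
  have hx := h.hx0
  have hw : 0 < (M - 1) * x := by positivity
  have ht : 0 < M * x := by positivity
  have hρ := h.h1
  have i1 := h.I1 hs (abs_le.mpr ⟨by linarith, hj2⟩ : |j| ≤ ρ)
  have i2 := h.I2 hs hj1 hj2
  have i1' : S ρ M x (-s) (j - 1) 0 < CC M x := by
    apply h.I1
    · rcases hs with rfl | rfl
      · right; rfl
      · left; norm_num
    · rw [abs_le]; constructor <;> linarith
  have i0 := S_refl (ρ := ρ) (M := M) (x := x) (s := s) (j := j)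
  have i0' : CC M x ≤ S ρ M x s j (-2 * ((M - 1) * x)) := by linarith
  rw [S_lin] at i1 i2 i0' ⊢
  exact window h.CC_pos i0' i2 i1 (by linarith) (by linarith) hy0 (by linarith)

/-- the long branch. -/
theorem Par.long {y : ℝ} (hy0 : 0 ≤ y) (hy : y ≤ 2 * π - 2 * ((M - 1) * x)) :
    S ρ M x 1 (-ρ) y < CC M x := by
  have hM := h.Mpos
  have hM1 := h.M1pos
  have hx := h.hx0
  have hw : 0 < (M - 1) * x := by positivity
  have ht : 0 < M * x := by positivity
  have hρ := h.h1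
  have hM6 : 6 ≤ M := by have := h.hM1; linarith
  have i1 := h.I1 (s := 1) (j := -ρ) (Or.inl rfl) (by rw [abs_neg, abs_of_pos (by linarith)])
  have i1' := h.I1 (s := 1) (j := ρ) (Or.inl rfl) (by rw [abs_of_pos (by linarith)])
  have i3 := h.I3
  have i0 := h.closing
  have i0' : CC M x ≤ S ρ M x 1 (-ρ) (-2 * (M * x) + 4 * x) := by linarith
  rw [S_lin] at i1 i3 i0' ⊢
  exact window h.CC_pos i0' i3 i1 (by nlinarith) (by nlinarith) hy0 (by linarith)

end

end Pool.Agent.MP_c62c12_an
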