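import Pool.Agent.MP_c62c12_an.Defs
import Pool.Agent.MP_c62c12_an.Orbit

set_option autoImplicit false

open Real

namespace Pool.Agent.MP_c62c12_an

/-- `e^{i y}` -/
noncomputable def u (y : ℝ) : ℂ := Complex.exp ((y : ℂ) * Complex.I)

theorem u_add (a b : ℝ) : u (a + b) = u a * u b := by
  unfold u
  rw [← Complex.exp_add]
  congr 1
  push_cast
  ring

theorem u_re (y : ℝ) : (u y).re = cos y := Complex.exp_ofReal_mul_I_re y

theorem u_im (y : ℝ) : (u y).im = sin y := Complex.exp_ofReal_mul_I_im y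

theorem u_norm (y : ℝ) : ‖u y‖ = 1 := Complex.norm_exp_ofReal_mul_I y

theorem u_zero : u 0 = 1 := by simp [u]

theorem u_nat_two_pi (n : ℕ) : u (n * (2 * π)) = 1 := by
  apply Complex.ext
  · rw [u_re, cos_nat_mul_two_pi]; simp
  · rw [u_im]
    have := sin_nat_mul_pi (2 * n)
    push_cast at this
    rw [show (n : ℝ) * (2 * π) = 2 * n * π by ring, this]; simp

theorem u_pi : u π = -1 := by
  unfold u
  exact Complex.exp_pi_mul_I

theorem u_two_cos (y : ℝ) : u y + u (-y) = ((2 * cos y : ℝ) : ℂ) := by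
  apply Complex.ext
  · rw [Complex.add_re, u_re, u_re, cos_neg, Complex.ofReal_re]; ring
  · rw [Complex.add_im, u_im, u_im, sin_neg, Complex.ofReal_im]; ring

theorem u_two_sin (y : ℝ) : u y - u (-y) = ((2 * sin y : ℝ) : ℂ) * Complex.I := by
  apply Complex.ext
  · rw [Complex.sub_re, u_re, u_re, cos_neg, Complex.re_ofReal_mul, Complex.I_re]; ring
  · rw [Complex.sub_im, u_im, u_im, sin_neg, Complex.im_ofReal_mul, Complex.I_im]; ring

theorem dir_eq (α : ℝ) (n : ℕ) : dir α n = u (2 * π * α * n) := by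
  unfold dir u
  congr 1
  push_cast
  ring

theorem norm_lt_iff (w : ℂ) : ‖w + 1‖ < ‖w - 1‖ ↔ w.re < 0 := by
  have h1 : ‖w + 1‖ ^ 2 = (w.re + 1) ^ 2 + w.im ^ 2 := by
    rw [Complex.sq_norm, Complex.normSq_apply]; simp; ring
  have h2 : ‖w - 1‖ ^ 2 = (w.re - 1) ^ 2 + w.im ^ 2 := by
    rw [Complex.sq_norm, Complex.normSq_apply]; simp; ring
  rw [← pow_lt_pow_iff_left₀ (norm_nonneg _) (norm_nonneg _) (two_ne_zero), h1, h2]
  constructor <;> intro h <;> nlinarith

theorem norm_eq_iff (w : ℂ) : ‖w + 1‖ = ‖w - 1‖ ↔ w.re = 0 := by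
  have h1 : ‖w + 1‖ ^ 2 = (w.re + 1) ^ 2 + w.im ^ 2 := by
    rw [Complex.sq_norm, Complex.normSq_apply]; simp; ring
  have h2 : ‖w - 1‖ ^ 2 = (w.re - 1) ^ 2 + w.im ^ 2 := by
    rw [Complex.sq_norm, Complex.normSq_apply]; simp; ring
  rw [← pow_left_inj₀ (norm_nonneg _) (norm_nonneg _) (two_ne_zero), h1, h2]
  constructor <;> intro h <;> nlinarith

/-- The point in the rotating frame. -/
noncomputable def W (α : ℝ) (z : ℂ) (n : ℕ) : ℂ := u (-(2 * π * α * n)) * pos α z n

theorem pos_eq (α : ℝ) (z : ℂ) (n : ℕ) : pos α z n = u (2 * π * α * n) * W α z n := by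
  unfold W
  rw [← mul_assoc, ← u_add, add_neg_cancel, u_zero, one_mul]

theorem norm_plus (α : ℝ) (z : ℂ) (n : ℕ) : ‖pos α z n + dir α n‖ = ‖W α z n + 1‖ := by
  rw [pos_eq, dir_eq]
  have : u (2 * π * α * n) * W α z n + u (2 * π * α * n) = u (2 * π * α * n) * (W α z n + 1) := by
    ring
  rw [this, norm_mul, u_norm, one_mul]

theorem norm_minus (α : ℝ) (z : ℂ) (n : ℕ) : ‖pos α z n - dir α n‖ = ‖W α z n - 1‖ := by
  rw [pos_eq, dir_eq]
  have : u (2 * π * α * n) * W α z n - u (2 * π * α * n) = u (2 * π * α * n) * (W α z n - 1) := by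
    ring
  rw [this, norm_mul, u_norm, one_mul]

theorem eps_of_pos {α : ℝ} {z : ℂ} {n : ℕ} (h : 0 < (W α z n).re) : eps α z n = -1 := by
  unfold eps greedySign
  rw [norm_plus, norm_minus, if_neg]
  rw [norm_lt_iff]
  exact not_lt.mpr h.le

theorem eps_of_neg {α : ℝ} {z : ℂ} {n : ℕ} (h : (W α z n).re < 0) : eps α z n = 1 := by
  unfold eps greedySign
  rw [norm_plus, norm_minus, if_pos]
  rw [norm_lt_iff]
  exact h

theorem W_step (α : ℝ) (z : ℂ) (n : ℕ) :
    W α z (n + 1) = u (-(2 * π * α)) * (W α z n + (eps α z n : ℂ)) := by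
  have h1 : pos α z (n + 1) = pos α z n + (eps α z n : ℂ) * dir α n := rfl
  have h2 : W α z (n + 1) = u (-(2 * π * α * ((n + 1 : ℕ) : ℝ))) * pos α z (n + 1) := rfl
  rw [h2, h1, pos_eq, dir_eq]
  have e : u (-(2 * π * α * ((n + 1 : ℕ) : ℝ))) = u (-(2 * π * α)) * u (-(2 * π * α * n)) := by
    rw [← u_add]
    congr 1
    push_cast
    ring
  have e2 : u (-(2 * π * α * n)) * u (2 * π * α * n) = 1 := by
    rw [← u_add, neg_add_cancel, u_zero]
  rw [e]
  calc u (-(2 * π * α)) * u (-(2 * π * α * n)) *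
      (u (2 * π * α * n) * W α z n + (eps α z n : ℂ) * u (2 * π * α * n)) =
      u (-(2 * π * α)) * (u (-(2 * π * α * n)) * u (2 * π * α * n)) *
        (W α z n + (eps α z n : ℂ)) := by ring
    _ = _ := by rw [e2, mul_one]

/-- The centre of rotation of a run of constant sign. -/
noncomputable def ff (t : ℝ) : ℂ := ((1 / (2 * cos (t / 2)) : ℝ) : ℂ) * u (-(t / 2))

theorem ff_re {t : ℝ} (ht : cos (t / 2) ≠ 0) : (ff t).re = 1 / 2 := by
  unfold ff
  rw [Complex.re_ofReal_mul, u_re, cos_neg]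
  field_simp

theorem ff_fix {t : ℝ} (ht : cos (t / 2) ≠ 0) : u (-(π + t)) * (ff t - 1) = ff t := by
  have h1 : u (-(π + t)) = - u (-t) := by
    rw [neg_add, u_add]
    have : u (-π) = -1 := by
      apply Complex.ext
      · simp [u_re]
      · simp [u_im]
    rw [this]; ring
  have h2 : (1 : ℂ) = ((1 / (2 * cos (t / 2)) : ℝ) : ℂ) * (u (t / 2) + u (-(t / 2))) := by
    rw [u_two_cos, ← Complex.ofReal_mul]
    rw [one_div_mul_cancel (by positivity)]
    simp
  have h3 : ff t - 1 = - (((1 / (2 * cos (t / 2)) : ℝ) : ℂ) * u (t / 2)) := by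
    unfold ff
    rw [h2]
    ring
  rw [h1, h3]
  unfold ff
  have h4 : u (-t) * u (t / 2) = u (-(t / 2)) := by
    rw [← u_add]; congr 1; ring
  calc -u (-t) * -(((1 / (2 * cos (t / 2)) : ℝ) : ℂ) * u (t / 2)) =
      ((1 / (2 * cos (t / 2)) : ℝ) : ℂ) * (u (-t) * u (t / 2)) := by ring
    _ = _ := by rw [h4]

/-- A run of constant sign. -/
theorem run {α t : ℝ} {z v : ℂ} {n L : ℕ} {σ : ℤ} (hα : 2 * π * α = π + t)
    (ht : cos (t / 2) ≠ 0) (hσ : σ = 1 ∨ σ = -1)
    (h0 : W α z n = (σ : ℂ) * (ff t + v))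
    (hp : ∀ i : ℕ, i < L → 0 < (ff t + u (-((π + t) * i)) * v).re) :
    (∀ i : ℕ, i ≤ L → W α z (n + i) = (σ : ℂ) * (ff t + u (-((π + t) * i)) * v)) ∧
    (∀ i : ℕ, i < L → eps α z (n + i) = -σ ∧ (W α z (n + i)).re ≠ 0) := by
  have hsign : ∀ i : ℕ, i < L → W α z (n + i) = (σ : ℂ) * (ff t + u (-((π + t) * i)) * v) →
      eps α z (n + i) = -σ ∧ (W α z (n + i)).re ≠ 0 := by
    intro i hi hW
    have hpi := hp i hi
    rcases hσ with rfl | rfl
    · have hre : 0 < (W α z (n + i)).re := by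
        rw [hW]; simpa using hpi
      exact ⟨eps_of_pos hre, hre.ne'⟩
    · have hre : (W α z (n + i)).re < 0 := by
        rw [hW]
        have : ((-1 : ℤ) : ℂ) * (ff t + u (-((π + t) * i)) * v) =
          -(ff t + u (-((π + t) * i)) * v) := by push_cast; ring
        rw [this, Complex.neg_re]
        linarith
      exact ⟨by rw [eps_of_neg hre]; norm_num, hre.ne⟩
  have hW : ∀ i : ℕ, i ≤ L → W α z (n + i) = (σ : ℂ) * (ff t + u (-((π + t) * i)) * v) := by
    intro i
    induction i with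
    | zero =>
      intro _
      simp [u_zero, h0]
    | succ i ih =>
      intro hi
      have hWi := ih (by omega)
      have hs := (hsign i (by omega) hWi).1
      rw [← add_assoc, W_step, hs, hWi, hα]
      have e : u (-((π + t) * ((i + 1 : ℕ) : ℝ))) = u (-(π + t)) * u (-((π + t) * i)) := by
        rw [← u_add]; congr 1; push_cast; ring
      rw [e]
      have hf := ff_fix ht
      push_cast
      calc u (-(π + t)) * ((σ : ℂ) * (ff t + u (-((π + t) * i)) * v) + -(σ : ℂ)) =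
          (σ : ℂ) * (u (-(π + t)) * (ff t - 1) + u (-(π + t)) * u (-((π + t) * i)) * v) := by ring
        _ = _ := by rw [hf]
  exact ⟨hW, fun i hi => hsign i hi (hW i hi.le)⟩

/-- The starting vectors of the runs. -/
noncomputable def vv (ρ M x s j : ℝ) : ℂ :=
  -(((1 / (2 * CC M x) : ℝ) : ℂ) * u (-(M * x / 2)) *
    (u (-((M - 1) * x)) + ((s * kap ρ M x : ℝ) : ℂ) * Complex.I * u (-(2 * j * ((M - 1) * x)))))

theorem vv_re {ρ M x : ℝ} (h : Par ρ M x) (s j y : ℝ) :
    (ff (M * x) + u (-y) * vv ρ M x s j).re = (CC M x - S ρ M x s j y) / (2 * CC M x) := by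
  have hC := h.CC_pos
  have hc2 : cos (M * x / 2) ≠ 0 := by
    intro h0
    unfold CC at hC
    rw [h0, zero_mul] at hC
    exact lt_irrefl _ hC
  rw [Complex.add_re, ff_re hc2]
  have e : u (-y) * vv ρ M x s j = ((-(1 / (2 * CC M x)) : ℝ) : ℂ) *
      (u (-(y + M * x / 2 + (M - 1) * x)) + ((s * kap ρ M x : ℝ) : ℂ) *
        (Complex.I * u (-(y + M * x / 2 + 2 * j * ((M - 1) * x))))) := by
    have e1 : u (-(y + M * x / 2 + (M - 1) * x)) =
        u (-y) * u (-(M * x / 2)) * u (-((M - 1) * x)) := by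
      rw [← u_add, ← u_add]; congr 1; ring
    have e2 : u (-(y + M * x / 2 + 2 * j * ((M - 1) * x))) =
        u (-y) * u (-(M * x / 2)) * u (-(2 * j * ((M - 1) * x))) := by
      rw [← u_add, ← u_add]; congr 1; ring
    rw [e1, e2]
    unfold vv
    push_cast
    ring
  rw [e, Complex.re_ofReal_mul, Complex.add_re, Complex.re_ofReal_mul, u_re]
  have e3 : (Complex.I * u (-(y + M * x / 2 + 2 * j * ((M - 1) * x)))).re =
      sin (y + M * x / 2 + 2 * j * ((M - 1) * x)) := by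
    rw [Complex.I_mul_re, u_im, sin_neg, neg_neg]
  rw [e3, cos_neg]
  unfold S
  field_simp
  ring

theorem vv_next {ρ M x : ℝ} (h : Par ρ M x) (s j : ℝ) :
    u (2 * ((M - 1) * x)) * vv ρ M x s j = -(vv ρ M x (-s) (j - 1)) - 2 * ff (M * x) := by
  have hC := h.CC_pos
  have hcc : CC M x = cos (M * x / 2) * cos ((M - 1) * x) := rfl
  have hc2 : cos (M * x / 2) ≠ 0 := by
    intro h0
    rw [hcc, h0, zero_mul] at hC
    exact lt_irrefl _ hC
  have hc3 : cos ((M - 1) * x) ≠ 0 := by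
    intro h0
    rw [hcc, h0, mul_zero] at hC
    exact lt_irrefl _ hC
  have hf : 2 * ff (M * x) = ((1 / (2 * CC M x) : ℝ) : ℂ) * u (-(M * x / 2)) *
      (u ((M - 1) * x) + u (-((M - 1) * x))) * 1 := by
    rw [u_two_cos]
    unfold ff
    have : (1 / (2 * CC M x)) * (2 * cos ((M - 1) * x)) = 2 * (1 / (2 * cos (M * x / 2))) := by
      rw [hcc]
      generalize cos ((M - 1) * x) = b at hc3
      generalize cos (M * x / 2) = a at hc2
      field_simp
    calc 2 * (((1 / (2 * cos (M * x / 2)) : ℝ) : ℂ) * u (-(M * x / 2))) =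
        ((2 * (1 / (2 * cos (M * x / 2))) : ℝ) : ℂ) * u (-(M * x / 2)) := by push_cast; ring
      _ = (((1 / (2 * CC M x)) * (2 * cos ((M - 1) * x)) : ℝ) : ℂ) * u (-(M * x / 2)) := by
          rw [this]
      _ = _ := by push_cast; ring
  rw [hf]
  unfold vv
  have e1 : u ((M - 1) * x) = u (2 * ((M - 1) * x)) * u (-((M - 1) * x)) := by
    rw [← u_add]; congr 1; ring
  have e2 : u (-(2 * (j - 1) * ((M - 1) * x))) =
      u (2 * ((M - 1) * x)) * u (-(2 * j * ((M - 1) * x))) := by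
    rw [← u_add]; congr 1; ring
  rw [e2, e1]
  push_cast
  ring

theorem vv_close {ρ M x : ℝ} (h : Par ρ M x) :
    u (2 * (M * x) - 4 * x) * vv ρ M x 1 (-ρ) = -(vv ρ M x 1 ρ) - 2 * ff (M * x) := by
  have hC := h.CC_pos
  have hcc : CC M x = cos (M * x / 2) * cos ((M - 1) * x) := rfl
  have hc2 : cos (M * x / 2) ≠ 0 := by
    intro h0
    rw [hcc, h0, zero_mul] at hC
    exact lt_irrefl _ hC
  have hc3 : cos ((M - 1) * x) ≠ 0 := by
    intro h0
    rw [hcc, h0, mul_zero] at hC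
    exact lt_irrefl _ hC
  have hf : 2 * ff (M * x) = ((1 / (2 * CC M x) : ℝ) : ℂ) * u (-(M * x / 2)) *
      (u ((M - 1) * x) + u (-((M - 1) * x))) * 1 := by
    rw [u_two_cos]
    unfold ff
    have : (1 / (2 * CC M x)) * (2 * cos ((M - 1) * x)) = 2 * (1 / (2 * cos (M * x / 2))) := by
      rw [hcc]
      generalize cos ((M - 1) * x) = b at hc3
      generalize cos (M * x / 2) = a at hc2
      field_simp
    calc 2 * (((1 / (2 * cos (M * x / 2)) : ℝ) : ℂ) * u (-(M * x / 2))) =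
        ((2 * (1 / (2 * cos (M * x / 2))) : ℝ) : ℂ) * u (-(M * x / 2)) := by push_cast; ring
      _ = (((1 / (2 * CC M x)) * (2 * cos ((M - 1) * x)) : ℝ) : ℂ) * u (-(M * x / 2)) := by
          rw [this]
      _ = _ := by push_cast; ring
  -- key identity
  have hk := h.kap_mul
  have key : ((kap ρ M x : ℝ) : ℂ) * Complex.I *
      (u (-(2 * ρ * ((M - 1) * x))) + u (2 * (M * x) - 4 * x) * u (2 * ρ * ((M - 1) * x))) =
      u ((M - 1) * x) - u (2 * (M * x) - 4 * x) * u (-((M - 1) * x)) := by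
    have a1 : u (-(2 * ρ * ((M - 1) * x))) =
        u ((M - 2) * x) * u (-(((2 * ρ + 2) * (M - 1) - M) * x)) := by
      rw [← u_add]; congr 1; ring
    have a2 : u (2 * (M * x) - 4 * x) * u (2 * ρ * ((M - 1) * x)) =
        u ((M - 2) * x) * u (((2 * ρ + 2) * (M - 1) - M) * x) := by
      rw [← u_add, ← u_add]; congr 1; ring
    have a3 : u ((M - 1) * x) = u ((M - 2) * x) * u x := by
      rw [← u_add]; congr 1; ring
    have a4 : u (2 * (M * x) - 4 * x) * u (-((M - 1) * x)) = u ((M - 2) * x) * u (-x) := by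
      rw [← u_add, ← u_add]; congr 1; ring
    rw [a1, a2, a3, a4]
    have b1 := u_two_cos (((2 * ρ + 2) * (M - 1) - M) * x)
    have b2 := u_two_sin x
    calc ((kap ρ M x : ℝ) : ℂ) * Complex.I *
        (u ((M - 2) * x) * u (-(((2 * ρ + 2) * (M - 1) - M) * x)) +
          u ((M - 2) * x) * u (((2 * ρ + 2) * (M - 1) - M) * x)) =
        u ((M - 2) * x) * (((kap ρ M x : ℝ) : ℂ) * Complex.I *
          (u (((2 * ρ + 2) * (M - 1) - M) * x) + u (-(((2 * ρ + 2) * (M - 1) - M) * x)))) := by ring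
      _ = u ((M - 2) * x) * (((kap ρ M x : ℝ) : ℂ) * Complex.I *
          ((2 * cos (((2 * ρ + 2) * (M - 1) - M) * x) : ℝ) : ℂ)) := by rw [b1]
      _ = u ((M - 2) * x) * (((2 * (kap ρ M x * cos (((2 * ρ + 2) * (M - 1) - M) * x)) : ℝ) : ℂ) *
          Complex.I) := by push_cast; ring
      _ = u ((M - 2) * x) * (((2 * sin x : ℝ) : ℂ) * Complex.I) := by rw [hk]
      _ = u ((M - 2) * x) * (u x - u (-x)) := by rw [b2]
      _ = _ := by ring
  rw [hf]
  unfold vv
  have c1 : u (-(2 * -ρ * ((M - 1) * x))) = u (2 * ρ * ((M - 1) * x)) := by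
    congr 1; ring
  rw [c1]
  have expand : ((1 * kap ρ M x : ℝ) : ℂ) = ((kap ρ M x : ℝ) : ℂ) := by rw [one_mul]
  rw [expand]
  linear_combination (-(((1 / (2 * CC M x) : ℝ) : ℂ) * u (-(M * x / 2)))) * key

theorem cos_ne {ρ M x : ℝ} (h : Par ρ M x) : cos (M * x / 2) ≠ 0 := by
  have hC := h.CC_pos
  intro h0
  unfold CC at hC
  rw [h0, zero_mul] at hC
  exact lt_irrefl _ hC

theorem neg_one_pow_cases (k : ℕ) : ((-1 : ℝ) ^ k = 1 ∨ (-1 : ℝ) ^ k = -1) := neg_one_pow_eq_or ℝ k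

theorem S_even (ρ M x s j y : ℝ) (n : ℕ) : S ρ M x s j (y + n * (2 * π)) = S ρ M x s j y := by
  rw [S_lin, S_lin, cos_add_nat_mul_two_pi, sin_add_nat_mul_two_pi]

/-- Positivity on short runs. -/
theorem pos_short {r q : ℕ} {M x : ℝ} (h : Par r M x)
    (hm : (2 * (q : ℝ) + 3) * (M * x) = π + 2 * x) {k : ℕ} (hk : k < 2 * r) {i : ℕ}
    (hi : i < 2 * q + 1) :
    0 < (ff (M * x) + u (-((π + M * x) * i)) * vv r M x ((-1) ^ k) ((r : ℝ) - k)).re := by
  rw [vv_re h]
  have hC := h.CC_pos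
  apply div_pos _ (by positivity)
  rw [sub_pos]
  have hx := h.hx0
  have hM := h.Mpos
  have ht : 0 < M * x := by positivity
  have hts := h.Mx_small
  have hpi := pi_gt_three
  have hkr : (k : ℝ) + 1 ≤ 2 * r := by exact_mod_cast hk
  have hk0 : (0 : ℝ) ≤ k := Nat.cast_nonneg k
  have hx2 : x ≤ M * x := by
    have := h.h1; have := h.hM1
    nlinarith
  have hiq : (i : ℝ) + 1 ≤ 2 * q + 1 := by exact_mod_cast hi
  have hi0 : (0 : ℝ) ≤ i := Nat.cast_nonneg i
  have hit : (i : ℝ) * (M * x) ≤ 2 * q * (M * x) := by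
    apply mul_le_mul_of_nonneg_right _ ht.le
    linarith
  rcases Nat.even_or_odd' i with ⟨g, hg | hg⟩
  · have e : (π + M * x) * i = i * (M * x) + g * (2 * π) := by
      rw [hg]; push_cast; ring
    rw [e, S_even]
    apply h.short (neg_one_pow_cases k) (by linarith) (by linarith) (by positivity)
    linarith
  · have e : (π + M * x) * i = (π + i * (M * x)) + g * (2 * π) := by
      rw [hg]; push_cast; ring
    rw [e, S_even]
    apply h.short (neg_one_pow_cases k) (by linarith) (by linarith) (by positivity)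
    have hiq2 : (i : ℝ) ≤ 2 * q - 1 := by
      have : i + 1 ≤ 2 * q := by omega
      have : (i : ℝ) + 1 ≤ 2 * q := by exact_mod_cast this
      linarith
    have hit2 : (i : ℝ) * (M * x) ≤ (2 * q - 1) * (M * x) :=
      mul_le_mul_of_nonneg_right hiq2 ht.le
    linarith

/-- Positivity on the long run. -/
theorem pos_long {r q : ℕ} {M x : ℝ} (h : Par r M x)
    (hm : (2 * (q : ℝ) + 3) * (M * x) = π + 2 * x) {i : ℕ}
    (hi : i < 4 * q + 4) :
    0 < (ff (M * x) + u (-((π + M * x) * i)) * vv r M x 1 (-(r : ℝ))).re := by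
  rw [vv_re h]
  have hC := h.CC_pos
  apply div_pos _ (by positivity)
  rw [sub_pos]
  have hx := h.hx0
  have hM := h.Mpos
  have ht : 0 < M * x := by positivity
  have hts := h.Mx_small
  have hpi := pi_gt_three
  have hx6 : 6 * x ≤ M * x := by
    have := h.h1; have := h.hM1
    nlinarith
  have hi0 : (0 : ℝ) ≤ i := Nat.cast_nonneg i
  rcases Nat.even_or_odd' i with ⟨g, hg | hg⟩
  · have e : (π + M * x) * i = i * (M * x) + g * (2 * π) := by
      rw [hg]; push_cast; ring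
    rw [e, S_even]
    apply h.long (by positivity)
    have hiq : (i : ℝ) ≤ 4 * q + 2 := by
      have : i ≤ 4 * q + 2 := by omega
      exact_mod_cast this
    have hit : (i : ℝ) * (M * x) ≤ (4 * q + 2) * (M * x) :=
      mul_le_mul_of_nonneg_right hiq ht.le
    linarith
  · by_cases hlt : i < 2 * q + 2
    · have e : (π + M * x) * i = (π + i * (M * x)) + g * (2 * π) := by
        rw [hg]; push_cast; ring
      rw [e, S_even]
      apply h.long (by positivity)
      have hiq : (i : ℝ) ≤ 2 * q + 1 := by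
        have : i ≤ 2 * q + 1 := by omega
        exact_mod_cast this
      have hit : (i : ℝ) * (M * x) ≤ (2 * q + 1) * (M * x) :=
        mul_le_mul_of_nonneg_right hiq ht.le
      linarith
    · have e : (π + M * x) * i = (i * (M * x) - π) + ((g + 1 : ℕ) : ℝ) * (2 * π) := by
        rw [hg]; push_cast; ring
      rw [e, S_even]
      have hiq : 2 * (q : ℝ) + 3 ≤ i := by
        have : 2 * q + 3 ≤ i := by omega
        exact_mod_cast this
      have hiq2 : (i : ℝ) ≤ 4 * q + 3 := by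
        have : i ≤ 4 * q + 3 := by omega
        exact_mod_cast this
      have hit : (2 * (q : ℝ) + 3) * (M * x) ≤ i * (M * x) :=
        mul_le_mul_of_nonneg_right hiq ht.le
      have hit2 : (i : ℝ) * (M * x) ≤ (4 * q + 3) * (M * x) :=
        mul_le_mul_of_nonneg_right hiq2 ht.le
      apply h.long
      · linarith
      · linarith

theorem u_short {q : ℕ} {M x : ℝ} (hm : (2 * (q : ℝ) + 3) * (M * x) = π + 2 * x) :
    u (-((π + M * x) * ((2 * q + 1 : ℕ) : ℝ))) = u (2 * ((M - 1) * x)) := by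
  have e : -((π + M * x) * ((2 * q + 1 : ℕ) : ℝ)) + ((q + 1 : ℕ) : ℝ) * (2 * π) =
      2 * ((M - 1) * x) := by
    push_cast
    linarith
  rw [← e, u_add, u_nat_two_pi, mul_one]

theorem u_long {q : ℕ} {M x : ℝ} (hm : (2 * (q : ℝ) + 3) * (M * x) = π + 2 * x) :
    u (-((π + M * x) * ((4 * q + 4 : ℕ) : ℝ))) = u (2 * (M * x) - 4 * x) := by
  have e : -((π + M * x) * ((4 * q + 4 : ℕ) : ℝ)) + ((2 * q + 3 : ℕ) : ℝ) * (2 * π) =
      2 * (M * x) - 4 * x := by
    push_cast
    linarith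
  rw [← e, u_add, u_nat_two_pi, mul_one]

theorem sigma_cases (k : ℕ) (σ : ℤ) (hσ : σ = 1 ∨ σ = -1) :
    (-1) ^ k * σ = 1 ∨ (-1) ^ k * σ = -1 := by
  rcases neg_one_pow_eq_or ℤ k with h | h <;> rcases hσ with rfl | rfl <;> simp [h]

/-- State at the start of the `k`-th run. -/
theorem chain {r q : ℕ} {M x α : ℝ} {z : ℂ} (h : Par r M x)
    (hm : (2 * (q : ℝ) + 3) * (M * x) = π + 2 * x) (hα : 2 * π * α = π + M * x)
    {n : ℕ} {σ : ℤ} (hσ : σ = 1 ∨ σ = -1)
    (h0 : W α z n = (σ : ℂ) * (ff (M * x) + vv r M x 1 r)) :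
    ∀ k : ℕ, k ≤ 2 * r → W α z (n + k * (2 * q + 1)) =
      (((-1) ^ k * σ : ℤ) : ℂ) * (ff (M * x) + vv r M x ((-1) ^ k) ((r : ℝ) - k)) := by
  intro k
  induction k with
  | zero => intro _; simpa using h0
  | succ k ih =>
    intro hk
    have hW := ih (by omega)
    have hrun := (run hα (cos_ne h) (sigma_cases k σ hσ) hW
      (fun i hi => pos_short h hm (by omega) hi)).1 (2 * q + 1) le_rfl
    have e : n + (k + 1) * (2 * q + 1) = n + k * (2 * q + 1) + (2 * q + 1) := by ring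
    rw [e, hrun, u_short hm, vv_next h]
    have e2 : (r : ℝ) - ((k + 1 : ℕ) : ℝ) = (r : ℝ) - k - 1 := by push_cast; ring
    rw [e2]
    have e3 : (-1 : ℝ) ^ (k + 1) = -(-1) ^ k := by rw [pow_succ]; ring
    rw [e3]
    push_cast
    ring

theorem period_step {r q : ℕ} {M x α : ℝ} {z : ℂ} (h : Par r M x)
    (hm : (2 * (q : ℝ) + 3) * (M * x) = π + 2 * x) (hα : 2 * π * α = π + M * x)
    {n : ℕ} {σ : ℤ} (hσ : σ = 1 ∨ σ = -1)
    (h0 : W α z n = (σ : ℂ) * (ff (M * x) + vv r M x 1 r)) :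
    W α z (n + (2 * r * (2 * q + 1) + (4 * q + 4))) =
      ((-σ : ℤ) : ℂ) * (ff (M * x) + vv r M x 1 r) := by
  have hc := chain h hm hα hσ h0 (2 * r) le_rfl
  have e1 : (-1 : ℝ) ^ (2 * r) = 1 := by rw [pow_mul]; simp
  have e1' : (-1 : ℤ) ^ (2 * r) = 1 := by rw [pow_mul]; simp
  have e2 : (r : ℝ) - ((2 * r : ℕ) : ℝ) = -(r : ℝ) := by push_cast; ring
  rw [e1, e1', e2, one_mul] at hc
  have hrun := (run hα (cos_ne h) hσ hc (fun i hi => pos_long h hm hi)).1 (4 * q + 4) le_rfl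
  rw [← add_assoc, hrun, u_long hm, vv_close h]
  push_cast
  ring

theorem periods {r q : ℕ} {M x α : ℝ} {z : ℂ} (h : Par r M x)
    (hm : (2 * (q : ℝ) + 3) * (M * x) = π + 2 * x) (hα : 2 * π * α = π + M * x)
    (h0 : W α z 0 = ff (M * x) + vv r M x 1 r) (j : ℕ) :
    W α z (j * (2 * r * (2 * q + 1) + (4 * q + 4))) =
      (((-1) ^ j : ℤ) : ℂ) * (ff (M * x) + vv r M x 1 r) := by
  induction j with
  | zero => simpa using h0
  | succ j ih =>
    have hs := period_step h hm hα (neg_one_pow_eq_or ℤ j) ih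
    have e : (j + 1) * (2 * r * (2 * q + 1) + (4 * q + 4)) =
      j * (2 * r * (2 * q + 1) + (4 * q + 4)) + (2 * r * (2 * q + 1) + (4 * q + 4)) := by ring
    rw [e, hs]
    push_cast
    ring

/-- Signs on the short runs. -/
theorem sign_short {r q : ℕ} {M x α : ℝ} {z : ℂ} (h : Par r M x)
    (hm : (2 * (q : ℝ) + 3) * (M * x) = π + 2 * x) (hα : 2 * π * α = π + M * x)
    (h0 : W α z 0 = ff (M * x) + vv r M x 1 r) (j k i : ℕ) (hk : k < 2 * r) (hi : i < 2 * q + 1) :
    eps α z (j * (2 * r * (2 * q + 1) + (4 * q + 4)) + k * (2 * q + 1) + i) =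
      -((-1) ^ k * (-1) ^ j) ∧
    (W α z (j * (2 * r * (2 * q + 1) + (4 * q + 4)) + k * (2 * q + 1) + i)).re ≠ 0 := by
  have hp := periods h hm hα h0 j
  have hc := chain h hm hα (neg_one_pow_eq_or ℤ j) hp k hk.le
  exact (run hα (cos_ne h) (sigma_cases k _ (neg_one_pow_eq_or ℤ j)) hc
      (fun i hi => pos_short h hm hk hi)).2 i hi

/-- Signs on the long runs. -/
theorem sign_long {r q : ℕ} {M x α : ℝ} {z : ℂ} (h : Par r M x)
    (hm : (2 * (q : ℝ) + 3) * (M * x) = π + 2 * x) (hα : 2 * π * α = π + M * x)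
    (h0 : W α z 0 = ff (M * x) + vv r M x 1 r) (j i : ℕ) (hi : i < 4 * q + 4) :
    eps α z (j * (2 * r * (2 * q + 1) + (4 * q + 4)) + 2 * r * (2 * q + 1) + i) =
      -((-1) ^ j) ∧
    (W α z (j * (2 * r * (2 * q + 1) + (4 * q + 4)) + 2 * r * (2 * q + 1) + i)).re ≠ 0 := by
  have hp := periods h hm hα h0 j
  have hc := chain h hm hα (neg_one_pow_eq_or ℤ j) hp (2 * r) le_rfl
  have e1 : (-1 : ℝ) ^ (2 * r) = 1 := by rw [pow_mul]; simp
  have e1' : (-1 : ℤ) ^ (2 * r) = 1 := by rw [pow_mul]; simp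
  have e2 : (r : ℝ) - ((2 * r : ℕ) : ℝ) = -(r : ℝ) := by push_cast; ring
  rw [e1, e1', e2, one_mul] at hc
  exact (run hα (cos_ne h) (neg_one_pow_eq_or ℤ j) hc (fun i hi => pos_long h hm hi)).2 i hi

/-- Every index is in some run. -/
theorem index_cases (r m L n : ℕ) (hm : 0 < m) (hP : 0 < 2 * r * m + L) :
    ∃ j, (∃ k i, k < 2 * r ∧ i < m ∧ n = j * (2 * r * m + L) + k * m + i) ∨
      (∃ i, i < L ∧ n = j * (2 * r * m + L) + 2 * r * m + i) := by
  set P := 2 * r * m + L with hPdef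
  refine ⟨n / P, ?_⟩
  have hdiv : n = n / P * P + n % P := by
    have := Nat.div_add_mod n P
    rw [mul_comm] at this
    exact this.symm
  have hlt : n % P < P := Nat.mod_lt _ hP
  by_cases hc : n % P < 2 * r * m
  · left
    refine ⟨(n % P) / m, (n % P) % m, ?_, Nat.mod_lt _ hm, ?_⟩
    · rw [Nat.div_lt_iff_lt_mul hm]; exact hc
    · have := Nat.div_add_mod (n % P) m
      rw [mul_comm] at this
      rw [add_assoc, this]
      exact hdiv
  · right
    push Not at hc
    refine ⟨n % P - 2 * r * m, by omega, by omega⟩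

section
variable {r q : ℕ} {M x α : ℝ} {z : ℂ} (h : Par r M x)
  (hm : (2 * (q : ℝ) + 3) * (M * x) = π + 2 * x) (hα : 2 * π * α = π + M * x)
  (h0 : W α z 0 = ff (M * x) + vv r M x 1 r)
include h hm hα h0

theorem admissible : Admissible α z := by
  intro n
  rw [norm_plus, norm_minus]
  intro hcon
  rw [norm_eq_iff] at hcon
  obtain ⟨j, hj⟩ := index_cases r (2 * q + 1) (4 * q + 4) n (by omega) (by omega)
  rcases hj with ⟨k, i, hk, hi, rfl⟩ | ⟨i, hi, rfl⟩
  · exact (sign_short h hm hα h0 j k i hk hi).2 hcon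
  · exact (sign_long h hm hα h0 j i hi).2 hcon

theorem is_period : IsEventualPeriod (eps α z) (2 * (2 * r * (2 * q + 1) + (4 * q + 4))) := by
  refine ⟨by omega, 0, fun n _ => ?_⟩
  obtain ⟨j, hj⟩ := index_cases r (2 * q + 1) (4 * q + 4) n (by omega) (by omega)
  rcases hj with ⟨k, i, hk, hi, rfl⟩ | ⟨i, hi, rfl⟩
  · have e : j * (2 * r * (2 * q + 1) + (4 * q + 4)) + k * (2 * q + 1) + i +
        2 * (2 * r * (2 * q + 1) + (4 * q + 4)) =
        (j + 2) * (2 * r * (2 * q + 1) + (4 * q + 4)) + k * (2 * q + 1) + i := by ring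
    rw [e, (sign_short h hm hα h0 j k i hk hi).1, (sign_short h hm hα h0 (j + 2) k i hk hi).1]
    ring
  · have e : j * (2 * r * (2 * q + 1) + (4 * q + 4)) + 2 * r * (2 * q + 1) + i +
        2 * (2 * r * (2 * q + 1) + (4 * q + 4)) =
        (j + 2) * (2 * r * (2 * q + 1) + (4 * q + 4)) + 2 * r * (2 * q + 1) + i := by ring
    rw [e, (sign_long h hm hα h0 j i hi).1, (sign_long h hm hα h0 (j + 2) i hi).1]
    ring

theorem sign_start (j k : ℕ) (hk : k ≤ 2 * r) :
    eps α z (j * (2 * r * (2 * q + 1) + (4 * q + 4)) + k * (2 * q + 1)) =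
      -((-1) ^ k * (-1) ^ j) := by
  rcases Nat.lt_or_ge k (2 * r) with hk' | hk'
  · have := (sign_short h hm hα h0 j k 0 hk' (by omega)).1
    simpa using this
  · have hk2 : k = 2 * r := by omega
    subst hk2
    have := (sign_long h hm hα h0 j 0 (by omega)).1
    have e1' : (-1 : ℤ) ^ (2 * r) = 1 := by rw [pow_mul]; simp
    rw [e1', one_mul]
    simpa using this

theorem period_ge (hr : 1 ≤ r) {p : ℕ} (hp : IsEventualPeriod (eps α z) p) :
    2 * r * (2 * q + 1) + (4 * q + 4) ≤ p := by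
  obtain ⟨hp1, N, hN⟩ := hp
  by_contra hlt
  push Not at hlt
  set P := 2 * r * (2 * q + 1) + (4 * q + 4) with hP
  have hP1 : 1 ≤ P := by omega
  have hjN : N ≤ N * P := Nat.le_mul_of_pos_right N hP1
  -- constant signs on the long run of block `N`
  have hconst : ∀ i, i < 4 * q + 4 → eps α z (N * P + 2 * r * (2 * q + 1) + i + p) =
      -((-1) ^ N) := by
    intro i hi
    rw [hN _ (by omega)]
    exact (sign_long h hm hα h0 N i hi).1
  have hss := sign_start h hm hα h0
  have hne : ∀ a : ℤ, (a = 1 ∨ a = -1) → -a ≠ a := by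
    rintro a (rfl | rfl) <;> norm_num
  rcases Nat.lt_or_ge p (4 * q + 4) with hc | hc
  · have h1 := hconst (4 * q + 4 - p) (by omega)
    have e : N * P + 2 * r * (2 * q + 1) + (4 * q + 4 - p) + p =
        (N + 1) * P + 0 * (2 * q + 1) := by
      have : (N + 1) * P = N * P + P := by ring
      omega
    rw [e, hss (N + 1) 0 (by omega)] at h1
    rw [pow_succ] at h1
    have h2 : -(-1 : ℤ) ^ N = (-1) ^ N := by linarith
    exact hne _ (neg_one_pow_eq_or ℤ N) h2
  · obtain ⟨d, hd⟩ := Nat.exists_eq_add_of_le hc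
    have hd2 : d < 2 * r * (2 * q + 1) := by omega
    have hk : d / (2 * q + 1) < 2 * r := by
      rw [Nat.div_lt_iff_lt_mul (by omega)]; exact hd2
    have hi0 : d % (2 * q + 1) < 2 * q + 1 := Nat.mod_lt _ (by omega)
    have hdm : d / (2 * q + 1) * (2 * q + 1) + d % (2 * q + 1) = d := by
      have := Nat.div_add_mod d (2 * q + 1)
      rw [mul_comm] at this
      exact this
    set k := d / (2 * q + 1) with hkdef
    set i0 := d % (2 * q + 1) with hi0def
    have h1 := hconst 0 (by omega)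
    have e1 : N * P + 2 * r * (2 * q + 1) + 0 + p = (N + 1) * P + k * (2 * q + 1) + i0 := by
      have : (N + 1) * P = N * P + P := by ring
      omega
    rw [e1, (sign_short h hm hα h0 (N + 1) k i0 hk hi0).1] at h1
    have h2 := hconst (2 * q + 1 - i0) (by omega)
    have e2 : N * P + 2 * r * (2 * q + 1) + (2 * q + 1 - i0) + p =
        (N + 1) * P + (k + 1) * (2 * q + 1) := by
      have t1 : (N + 1) * P = N * P + P := by ring
      have t2 : (k + 1) * (2 * q + 1) = k * (2 * q + 1) + (2 * q + 1) := by ring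
      omega
    rw [e2, hss (N + 1) (k + 1) (by omega)] at h2
    rw [pow_succ] at h2
    have h3 : -((-1 : ℤ) ^ k * (-1) ^ (N + 1)) = (-1) ^ k * (-1) ^ (N + 1) := by linarith
    refine hne _ ?_ h3
    rw [← pow_add]
    exact neg_one_pow_eq_or ℤ _

end

/-- For every constant `c` there are an irrational `α > 0` and a starting point without ties whose
sign sequence is eventually periodic with least period larger than `c / ‖2 α‖`. -/
theorem main : ∀ c : ℝ, 0 < c → ∃ (α : ℝ) (z : ℂ) (p : ℕ),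
    Irrational α ∧ 0 < α ∧ Admissible α z ∧ IsLeast {q : ℕ | IsEventualPeriod (eps α z) q} p ∧
    c / distInt (2 * α) < (p : ℝ) := by
  intro c hc
  obtain ⟨r0, hr0⟩ := exists_nat_gt c
  set r := r0 + 1 with hrdef
  have hr1 : (1 : ℝ) ≤ (r : ℝ) := by
    have : 1 ≤ r := by omega
    exact_mod_cast this
  have hrc : c < (r : ℝ) := by
    rw [hrdef]; push_cast; linarith
  obtain ⟨M, hMirr, hM1, hM2⟩ := exists_irrational_btwn
    (show 4 * (r : ℝ) + 2 < 4 * (r : ℝ) + 5 / 2 by linarith)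
  have hM6 : 6 ≤ M := by linarith
  set q := 50 * r ^ 3 with hqdef
  have hqR : (q : ℝ) = 50 * (r : ℝ) ^ 3 := by rw [hqdef]; push_cast; ring
  have hr3 : (1 : ℝ) ≤ (r : ℝ) ^ 3 := one_le_pow₀ hr1
  have hD : 0 < (2 * (q : ℝ) + 3) * M - 2 := by
    rw [hqR]; nlinarith
  set x := π / ((2 * (q : ℝ) + 3) * M - 2) with hx
  have hx0 : 0 < x := div_pos pi_pos hD
  have hm : (2 * (q : ℝ) + 3) * (M * x) = π + 2 * x := by
    have : x * ((2 * (q : ℝ) + 3) * M - 2) = π := by rw [hx]; exact div_mul_cancel₀ _ hD.ne'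
    linarith
  have hpar : Par r M x := by
    refine ⟨hr1, hM1.le, hM2.le, hx0, ?_⟩
    rw [hx, mul_div_assoc', div_le_one hD]
    have h4 := pi_lt_four
    have h5 : 100 * (r : ℝ) ^ 3 * π ≤ 100 * (r : ℝ) ^ 3 * 4 :=
      mul_le_mul_of_nonneg_left h4.le (by positivity)
    rw [hqR]
    have h6 : (100 * (r : ℝ) ^ 3 + 3) * 6 ≤ (100 * (r : ℝ) ^ 3 + 3) * M :=
      mul_le_mul_of_nonneg_left hM6 (by positivity)
    nlinarith
  have hpi := pi_pos
  set α := 1 / 2 + M * x / (2 * π) with hαdef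
  have hα : 2 * π * α = π + M * x := by
    rw [hαdef]; field_simp
  have hMx : 0 < M * x := by positivity
  have hMxs := hpar.Mx_small
  set z : ℂ := ff (M * x) + vv r M x 1 r with hz
  have h0 : W α z 0 = ff (M * x) + vv r M x 1 r := by
    have : W α z 0 = u (-(2 * π * α * ((0 : ℕ) : ℝ))) * z := rfl
    rw [this]
    simp [u_zero, hz]
  have hper := is_period hpar hm hα h0
  classical
  have hex : ∃ p, IsEventualPeriod (eps α z) p := ⟨_, hper⟩
  refine ⟨α, z, Nat.find hex, ?_, ?_, admissible hpar hm hα h0, ⟨Nat.find_spec hex,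
    fun p hp => Nat.find_min' hex hp⟩, ?_⟩
  · -- irrationality
    rintro ⟨a, ha⟩
    apply hMirr
    have hb : M = (2 * (a : ℝ) - 1) * ((2 * (q : ℝ) + 3) * M - 2) := by
      have e1 : 2 * (a : ℝ) - 1 = M * x / π := by
        rw [ha, hαdef]; field_simp; ring
      have e2 : x * ((2 * (q : ℝ) + 3) * M - 2) = π := by
        rw [hx]; exact div_mul_cancel₀ _ hD.ne'
      rw [e1, div_mul_eq_mul_div, mul_assoc, e2]
      field_simp
    have hne : 1 - (2 * (a : ℝ) - 1) * (2 * (q : ℝ) + 3) ≠ 0 := by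
      intro hz0
      have e3 : M * (1 - (2 * (a : ℝ) - 1) * (2 * (q : ℝ) + 3)) = -(2 * (2 * (a : ℝ) - 1)) := by
        linarith
      rw [hz0, mul_zero] at e3
      have e4 : 2 * (a : ℝ) - 1 = 0 := by linarith
      rw [e4] at hz0
      norm_num at hz0
    refine ⟨(-(2 * (2 * a - 1))) / (1 - (2 * a - 1) * (2 * (q : ℚ) + 3)), ?_⟩
    push_cast
    rw [div_eq_iff hne]
    linarith
  · rw [hαdef]; positivity
  · -- size
    have hge := period_ge hpar hm hα h0 (by omega) (Nat.find_spec hex)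
    have hdist : distInt (2 * α) = M * x / π := by
      unfold distInt
      have e1 : 2 * α = M * x / π + 1 := by
        rw [hαdef]; field_simp
        ring
      have hlt : M * x / π < 1 / 2 := by
        rw [div_lt_iff₀ hpi]
        have := pi_gt_three
        linarith
      have hpos : 0 < M * x / π := by positivity
      have hround : round (M * x / π) = 0 := by
        rw [round_eq_zero_iff]
        constructor <;> linarith
      rw [e1, round_add_one, hround]
      have : M * x / π + 1 - (((0 : ℤ) + 1 : ℤ) : ℝ) = M * x / π := by push_cast; ring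
      rw [this, abs_of_pos hpos]
    rw [hdist]
    have hgeR : (2 * (r : ℝ) * (2 * q + 1) + (4 * q + 4)) ≤ (Nat.find hex : ℝ) := by
      exact_mod_cast hge
    refine lt_of_lt_of_le ?_ hgeR
    rw [div_div_eq_mul_div, div_lt_iff₀ hMx]
    have e5 : (2 * (r : ℝ) * (2 * q + 1) + (4 * q + 4)) * (M * x) =
        (2 * (r : ℝ) + 2) * ((2 * (q : ℝ) + 3) * (M * x)) - (4 * r + 2) * (M * x) := by ring
    rw [e5, hm]
    have hrw := hpar.rw_le
    have hM1' := hpar.M1pos
    have h7 : (4 * (r : ℝ) + 2) * (M * x) ≤ 1 := by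
      have a1 : (M - 1) * x ≥ 5 / 6 * (M * x) := by nlinarith
      have a2 : 2 * (r : ℝ) * ((M - 1) * x) ≥ 2 * (r : ℝ) * (5 / 6 * (M * x)) :=
        mul_le_mul_of_nonneg_left a1 (by positivity)
      have a3 : (r : ℝ) * (M * x) ≥ 1 * (M * x) := mul_le_mul_of_nonneg_right hr1 hMx.le
      nlinarith
    have h8 : c * π < (r : ℝ) * π := mul_lt_mul_of_pos_right hrc hpi
    have h9 : 0 ≤ (2 * (r : ℝ) + 2) * (2 * x) := by positivity
    have h10 := pi_gt_three
    nlinarith

end Pool.Agent.MP_c62c12_an
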