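import Mathlib

set_option autoImplicit false

open Real

namespace Pool.Agent.MP_c62c12_an

/-- A sinusoid that reaches the positive level `C` at `x0` and is below it at `x1 < x0 < x2`
stays below it on the whole arc from `x2` to `x1 + 2π`. -/
theorem window {A B C x0 x1 x2 x : ℝ} (hC : 0 < C) (h0 : C ≤ A * cos x0 + B * sin x0)
    (h1 : A * cos x1 + B * sin x1 < C) (h2 : A * cos x2 + B * sin x2 < C)
    (h10 : x1 < x0) (h02 : x0 < x2) (hx2 : x2 ≤ x) (hx : x ≤ x1 + 2 * π) :
    A * cos x + B * sin x < C := by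
  by_contra hcon
  push Not at hcon
  have key : ∀ a b y : ℝ, sin (y - a) * (A * cos b + B * sin b) =
      sin (y - b) * (A * cos a + B * sin a) + sin (b - a) * (A * cos y + B * sin y) := by
    intro a b y
    rw [sin_sub, sin_sub, sin_sub]
    have ha := sin_sq_add_cos_sq a
    have hb := sin_sq_add_cos_sq b
    have hy := sin_sq_add_cos_sq y
    ring
  have sub : ∀ a b : ℝ, 0 ≤ sin a → 0 ≤ sin b → sin (a + b) ≤ sin a + sin b := by
    intro a b ha hb
    rw [sin_add]
    have h1 := cos_le_one a
    have h2 := cos_le_one b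
    nlinarith
  rcases lt_trichotomy x (x0 + π) with h | h | h
  · -- right part
    have k := key x0 x2 x
    have s1 : 0 < sin (x - x0) := sin_pos_of_pos_of_lt_pi (by linarith) (by linarith)
    have s2 : 0 ≤ sin (x - x2) := sin_nonneg_of_nonneg_of_le_pi (by linarith) (by linarith)
    have s3 : 0 < sin (x2 - x0) := sin_pos_of_pos_of_lt_pi (by linarith) (by linarith)
    have s4 := sub (x - x2) (x2 - x0) s2 s3.le
    have e : x - x2 + (x2 - x0) = x - x0 := by ring
    rw [e] at s4
    have l1 : sin (x - x0) * (A * cos x2 + B * sin x2) < sin (x - x0) * C :=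
      mul_lt_mul_of_pos_left h2 s1
    have l2 : sin (x - x2) * C ≤ sin (x - x2) * (A * cos x0 + B * sin x0) :=
      mul_le_mul_of_nonneg_left h0 s2
    have l3 : sin (x2 - x0) * C ≤ sin (x2 - x0) * (A * cos x + B * sin x) :=
      mul_le_mul_of_nonneg_left hcon s3.le
    have l4 : sin (x - x0) * C ≤ (sin (x - x2) + sin (x2 - x0)) * C :=
      mul_le_mul_of_nonneg_right s4 hC.le
    nlinarith
  · rw [h, cos_add_pi, sin_add_pi] at hcon
    linarith
  · -- left part
    have hc' : cos (x - 2 * π) = cos x := cos_sub_two_pi x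
    have hs' : sin (x - 2 * π) = sin x := sin_sub_two_pi x
    rw [← hc', ← hs'] at hcon
    set y := x - 2 * π with hy
    have k := key y x1 x0
    -- sin (x0 - y) * g x1 = sin (x0 - x1) * g y + sin (x1 - y) * g x0
    have s1 : 0 < sin (x0 - y) := sin_pos_of_pos_of_lt_pi (by linarith) (by linarith)
    have s2 : 0 < sin (x0 - x1) := sin_pos_of_pos_of_lt_pi (by linarith) (by linarith)
    have s3 : 0 ≤ sin (x1 - y) := sin_nonneg_of_nonneg_of_le_pi (by linarith) (by linarith)
    have s4 := sub (x0 - x1) (x1 - y) s2.le s3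
    have e : x0 - x1 + (x1 - y) = x0 - y := by ring
    rw [e] at s4
    have l1 : sin (x0 - y) * (A * cos x1 + B * sin x1) < sin (x0 - y) * C :=
      mul_lt_mul_of_pos_left h1 s1
    have l2 : sin (x0 - x1) * C ≤ sin (x0 - x1) * (A * cos y + B * sin y) :=
      mul_le_mul_of_nonneg_left hcon s2.le
    have l3 : sin (x1 - y) * C ≤ sin (x1 - y) * (A * cos x0 + B * sin x0) :=
      mul_le_mul_of_nonneg_left h0 s3
    have l4 : sin (x0 - y) * C ≤ (sin (x0 - x1) + sin (x1 - y)) * C :=
      mul_le_mul_of_nonneg_right s4 hC.le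
    nlinarith

end Pool.Agent.MP_c62c12_an
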